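import Mathlib
import Pool.Agent.W437.HP.Fam

/-!
# Products of factors which decompose into pieces with the full symplectic Lie algebra
-/

set_option linter.unusedSectionVars false

namespace Pool.Agent.W437.HR

open Matrix Pool.Agent.H204R3.CM Pool.Agent.H194R3.CM Pool.Agent.W437.HC Pool.Agent.W437.HD
  Pool.Agent.W437.HP

/-- The space is the direct sum of stable subspaces with invariant symplectic forms on which the
Lie algebra acts as the full symplectic Lie algebra. -/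
def HasPcs {R : Type} [Fintype R] [DecidableEq R] (D : Matrix R R ℂ) : Prop :=
  ∃ (A : Type) (_ : Fintype A) (_ : DecidableEq A) (N : A → Submodule ℂ (R → ℂ))
    (w : ∀ a, N a →ₗ[ℂ] N a →ₗ[ℂ] ℂ) (π : ∀ a, (R → ℂ) →ₗ[ℂ] N a)
    (hst : ∀ a, ∀ X ∈ lieM D ℂ, ∀ x ∈ N a, X *ᵥ x ∈ N a), (∀ y, y = ∑ a, (π a y : R → ℂ)) ∧
    (∀ a, Nontrivial (N a)) ∧ (∀ a x, w a x x = 0) ∧ (∀ a x, (∀ y, w a x y = 0) → x = 0) ∧
    (∀ a X, IsSp (w a) (rsN (N a) (hst a) X)) ∧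
    (∀ a x y, ∃ X, rsN (N a) (hst a) X = EE (w a) x y) ∧
    (∀ a, ∀ X ∈ lieM D ℂ, ∀ y, (π a (X *ᵥ y) : R → ℂ) = X *ᵥ (π a y : R → ℂ))

/-- The pieces in the case of rank one. -/
theorem hasPcs_of_top {R : Type} [Fintype R] [DecidableEq R] {D Om : Matrix R R ℂ}
    (hOm : Omᵀ = -Om) (hOu : IsUnit Om)
    (hsp : ∀ X ∈ lieM D ℂ, Xᵀ * Om + Om * X = 0) (htop : UU D Om = ⊤) : HasPcs D := by
  obtain ⟨A, hA1, hA2, N, π, hsum, hnt, hN2, hN3, hst, hπ⟩ := exists_pieces hOm hOu hsp htop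
  refine ⟨A, hA1, hA2, N, fun a => wN Om (N a), π, hst, hsum, hnt, ?_, ?_, ?_, ?_, hπ⟩
  · intro a x
    exact ww_self hOm _
  · intro a x hx
    exact Subtype.ext (hN2 a x.1 x.2 fun y hy => hx ⟨y, hy⟩)
  · intro a X
    exact isSp_rsN (N a) (hst a) hsp X
  · intro a x y
    exact ⟨⟨_, hN3 a x.1 x.2 y.1 y.2⟩, rsN_SS (N a) (hst a) x y _⟩

section glue

variable {B : Type} [Fintype B] [DecidableEq B] {D : Matrix B B ℂ} {ι : Type}
    [Fintype ι] [DecidableEq ι] {R : ι → Type} [∀ i, Fintype (R i)] [∀ i, DecidableEq (R i)]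
    {D' : ∀ i, Matrix (R i) (R i) ℂ} {Om' : ∀ i, Matrix (R i) (R i) ℚ}
    (b : Blocks B D R D' Om')

/-- The action of the Lie algebra on a piece is the full symplectic Lie algebra. -/
theorem Blocks.full (i : ι)
    (hnd : ∀ X ∈ (lieM D ℚ).map (b.bl ℚ i),
      (∀ Y ∈ (lieM D ℚ).map (b.bl ℚ i), trace (X * Y) = 0) → X = 0)
    (hD2 : D' i * D' i = 1) (N : Submodule ℂ (R i → ℂ)) (w : N →ₗ[ℂ] N →ₗ[ℂ] ℂ)
    (hst : ∀ X ∈ lieM (D' i) ℂ, ∀ x ∈ N, X *ᵥ x ∈ N) (hnt : Nontrivial N)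
    (halt : ∀ x, w x x = 0) (hnon : ∀ x, (∀ y, w x y = 0) → x = 0)
    (hsp : ∀ X, IsSp w (rsN N hst X)) (hful : ∀ x y, ∃ X, rsN N hst X = EE w x y) (x y : N) :
    ∃ X, ((rsN N hst) ∘ₗ b.blL i) X = EE w x y := by
  have h := ideal_full (w := w) (ρ := rsN N hst) (br := brL (D' i)) halt hnon
    (rsN_brL N hst) hsp hful
    (LinearMap.range ((rsN N hst) ∘ₗ b.blL i)) ?_ (A := rsN N hst (b.blL i ⟨D, D_mem D⟩))
    ⟨_, rfl⟩ (hsp _) ?_ x y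
  · exact h
  · rintro X _ ⟨Y, rfl⟩
    obtain ⟨W, hW, hW'⟩ := b.ideal_C i hnd X.2 (X := b.bl ℂ i Y.1) ⟨Y.1, Y.2, rfl⟩
    refine ⟨⟨W, hW⟩, ?_⟩
    rw [LinearMap.comp_apply, LinearMap.comp_apply, ← rsN_brL]
    congr 1
    exact Subtype.ext hW'
  · intro h0
    obtain ⟨z, hz⟩ := exists_ne (0 : N)
    apply hz
    apply Subtype.ext
    have h1 : (rsN N hst (b.blL i ⟨D, D_mem D⟩) (rsN N hst (b.blL i ⟨D, D_mem D⟩) z) : R i → ℂ) =
        (z : R i → ℂ) := by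
      rw [rsN_coe, rsN_coe, mulVec_mulVec]
      have h2 : (b.blL i ⟨D, D_mem D⟩).1 = D' i := b.bl_D i
      rw [h2, hD2, one_mulVec]
    rw [← h1, h0]
    rfl

/-- The forms killed by the operator of the product are linear combinations of products of
bilinear forms. -/
theorem Blocks.mem_MS
    (hnd : ∀ i, ∀ X ∈ (lieM D ℚ).map (b.bl ℚ i),
      (∀ Y ∈ (lieM D ℚ).map (b.bl ℚ i), trace (X * Y) = 0) → X = 0)
    (hD2 : ∀ i, D' i * D' i = 1) (hp : ∀ i, HasPcs (D' i))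
    {m : ℕ} (c : (Fin m × Fin 2 → B) → ℚ) (hc : IsH D c) : c ∈ MS D m := by
  classical
  choose A hA1 hA2 N w π hst hsum hnt halt hnon hsp hful hπ using hp
  let s : Sys (lieM D ℂ) (brL D) (N := fun a : (Σ i, A i) => ↥(N a.1 a.2)) :=
    { w := fun a => w a.1 a.2
      ρ := fun a => (rsN (N a.1 a.2) (hst a.1 a.2)) ∘ₗ b.blL a.1
      alt := fun a x => halt a.1 a.2 x
      nd := fun a x hx => hnon a.1 a.2 x hx
      brk := fun a X Y => by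
        rw [LinearMap.comp_apply, b.blL_brL, rsN_brL]
        rfl
      sp := fun a X => hsp a.1 a.2 (b.blL a.1 X)
      full := fun a x y => Blocks.full b a.1 (hnd a.1) (hD2 a.1) (N a.1 a.2) (w a.1 a.2)
        (hst a.1 a.2) (hnt a.1 a.2) (halt a.1 a.2) (hnon a.1 a.2) (hsp a.1 a.2)
        (hful a.1 a.2) x y }
  have hntn : ∀ a : (Σ i, A i), Nontrivial ↥(N a.1 a.2) := fun a => hnt a.1 a.2
  refine mem_MS_of_sys s
    (fun a => (Matrix.mulVecLin (cK ℂ (b.P a.1))ᵀ) ∘ₗ (N a.1 a.2).subtype)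
    (fun a => (π a.1 a.2) ∘ₗ (Matrix.mulVecLin (cK ℂ (b.P a.1)))) ?_ ?_ ?_ c hc
  · intro y
    have h1 : y = ∑ i, (cK ℂ (b.P i))ᵀ *ᵥ (cK ℂ (b.P i) *ᵥ y) := by
      conv_lhs => rw [← one_mulVec y, ← b.totK, sum_mulVec]
      exact Finset.sum_congr rfl fun i _ => (mulVec_mulVec _ _ _).symm
    conv_lhs => rw [h1]
    rw [Fintype.sum_sigma]
    refine Finset.sum_congr rfl fun i _ => ?_
    conv_lhs => rw [hsum i (cK ℂ (b.P i) *ᵥ y)]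
    rw [mulVec_sum]
    rfl
  · intro a X u
    change X.1 *ᵥ ((cK ℂ (b.P a.1))ᵀ *ᵥ (u : R a.1 → ℂ)) =
      (cK ℂ (b.P a.1))ᵀ *ᵥ (b.bl ℂ a.1 X.1 *ᵥ (u : R a.1 → ℂ))
    rw [mulVec_mulVec, mulVec_mulVec, b.mul_inc X.2]
  · intro a X y
    apply Subtype.ext
    change (π a.1 a.2 (cK ℂ (b.P a.1) *ᵥ (X.1 *ᵥ y)) : R a.1 → ℂ) =
      b.bl ℂ a.1 X.1 *ᵥ (π a.1 a.2 (cK ℂ (b.P a.1) *ᵥ y) : R a.1 → ℂ)
    rw [mulVec_mulVec, b.prj_mul X.2, ← mulVec_mulVec, hπ a.1 a.2 _ (b.bl_mem X.2 a.1)]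

end glue

section prod

variable {ι : Type} [Fintype ι] [DecidableEq ι] {g : ι → ℕ}
  (Z : ∀ i, Matrix (Fin (g i)) (Fin (g i)) ℂ)

/-- The forms killed by the operator of the product. -/
theorem mem_MS_prod (hZ : ∀ i, (Z i)ᵀ = Z i) (hpos : ∀ i, (imM (Z i)).PosDef)
    (hp : ∀ i, HasPcs (DZ (Z i))) {m : ℕ}
    (c : (Fin m × Fin 2 → Fin (NB g) ⊕ Fin (NB g)) → ℚ) (hc : IsH (DZ (bigD ℂ Z)) c) :
    c ∈ MS (DZ (bigD ℂ Z)) m :=
  Blocks.mem_MS (blocksOf Z hZ hpos) (blocksOf_nondeg Z hZ hpos)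
    (fun i => DZ_sq ((hpos i).isUnit.map Matrix.detMonoidHom)) hp c hc

/-- Hodge classes on products. -/
theorem divisorial_of_pcs (hZ : ∀ i, (Z i)ᵀ = Z i) (hpos : ∀ i, (imM (Z i)).PosDef)
    (hp : ∀ i, HasPcs (DZ (Z i))) {n m : ℕ} (t : Fin n → ι)
    (f : (∀ j, Fin (g (t j)) ⊕ Fin (g (t j)) → ℚ) [⋀^Fin m × Fin 2]→ₗ[ℚ] ℚ)
    (hf : IsHodge (perFam Z t) f) : f ∈ divisorial (perFam Z t) m := by
  have hYb : IsUnit (imM (bigD ℂ Z)).det :=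
    (imM_bigD_posDef Z hpos).isUnit.map Matrix.detMonoidHom
  have h1 : IsHodge (perPow (bigD ℂ Z) n) (f.compLinearMap (prH g t)) :=
    Pool.Agent.W437.HK.isHodge_pullback (Φ := prT g t) (pr_per Z t) hf
  have h2 := mem_divisorial_of_MS hYb (fun c hc => mem_MS_prod Z hZ hpos hp c hc) _ h1
  have h3 := Pool.Agent.W437.HK.divisorial_pullback (Φ := incT g t) (inc_per Z t) h2
  have h4 : (f.compLinearMap (prH g t)).compLinearMap (incH g t) = f := by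
    ext v
    change f (fun l => prH g t (incH g t (v l))) = f v
    congr 1
    funext l j
    change pm g ℚ (t j) *ᵥ ((pm g ℚ (t j))ᵀ *ᵥ (v l j)) = v l j
    rw [mulVec_mulVec, pm_same, one_mulVec]
  rwa [h4] at h3

end prod

/-- Hodge classes on products. -/
theorem divisorial_prod {n m : ℕ} {g : Fin n → ℕ} (Z : ∀ i, Matrix (Fin (g i)) (Fin (g i)) ℂ)
    (hZ : ∀ i, (Z i)ᵀ = Z i) (hpos : ∀ i, (imM (Z i)).PosDef)
    (hp : ∀ i, HasPcs (DZ (Z i)))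
    (f : (∀ i, Fin (g i) ⊕ Fin (g i) → ℚ) [⋀^Fin m × Fin 2]→ₗ[ℚ] ℚ)
    (hf : IsHodge (perProd Z) f) : f ∈ divisorial (perProd Z) m :=
  divisorial_of_pcs Z hZ hpos hp (n := n) (fun i => i) f hf

end Pool.Agent.W437.HR
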